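import Mathlib

/-! Targets for MP_eb32d7_co (strong colouring, maximum degree two). -/

set_option autoImplicit false

namespace Pool.Agent.H98.S4

open Finset

/-- maximum degree at most two -/
def Deg2 {V : Type} (G : SimpleGraph V) : Prop :=
  ∀ x a b c : V, G.Adj x a → G.Adj x b → G.Adj x c → a = b ∨ a = c ∨ b = c

/-- every block (fibre of `f`) has exactly four elements -/
def Blk4 {V β : Type} [Fintype V] [DecidableEq β] (f : V → β) : Prop :=
  ∀ v : V, (univ.filter (fun u => f u = f v)).card = 4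

/-- a proper colouring with four colours, rainbow on the blocks -/
def Col4 {V β : Type} (G : SimpleGraph V) (f : V → β) : Prop :=
  ∃ c : V → Fin 4, (∀ u v, G.Adj u v → c u ≠ c v) ∧ (∀ u v, f u = f v → u ≠ v → c u ≠ c v)

def R0 {V β : Type} (G : SimpleGraph V) (f : V → β) : Prop :=
  ∀ u v : V, G.Adj u v → f u ≠ f v

def R2 {V β : Type} (G : SimpleGraph V) (f : V → β) : Prop :=
  ∀ u v w : V, u ≠ v → G.Adj u w → G.Adj v w → f u ≠ f v

/-- the theorem for all instances with fewer than `n` vertices -/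
def AllBelow (n : ℕ) : Prop :=
  ∀ (V β : Type) [Fintype V] [DecidableEq V] [DecidableEq β] (G : SimpleGraph V) (f : V → β),
    Fintype.card V < n → Deg2 G → Blk4 f → Col4 G f

/-! ### reductions -/

def T_A1 : Prop :=
  ∀ (V β : Type) [Fintype V] [DecidableEq V] [DecidableEq β] (G : SimpleGraph V) (f : V → β),
    Deg2 G → Blk4 f → R0 G f → AllBelow (Fintype.card V) →
    ∀ u v w t : V, u ≠ v → w ≠ t → f u = f v → G.Adj u w → G.Adj v w → G.Adj u t → G.Adj v t →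
      f w = f t → Col4 G f

def T_A2 : Prop :=
  ∀ (V β : Type) [Fintype V] [DecidableEq V] [DecidableEq β] (G : SimpleGraph V) (f : V → β),
    Deg2 G → Blk4 f → R0 G f → AllBelow (Fintype.card V) →
    ∀ u v w t : V, u ≠ v → w ≠ t → f u = f v → G.Adj u w → G.Adj v w → G.Adj u t → G.Adj v t →
      f w ≠ f t → Col4 G f

def T_BB : Prop :=
  ∀ (V β : Type) [Fintype V] [DecidableEq V] [DecidableEq β] (G : SimpleGraph V) (f : V → β),
    Deg2 G → Blk4 f → R0 G f → AllBelow (Fintype.card V) →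
    ∀ u v w : V, u ≠ v → f u = f v → G.Adj u w → G.Adj v w →
      (∀ t : V, G.Adj u t → G.Adj v t → t = w) → Col4 G f

/-- independent transversal -/
def IsIT {V β : Type} (G : SimpleGraph V) (f : V → β) (S : Finset V) : Prop :=
  (∀ v : V, ∃ x ∈ S, f x = f v) ∧ (∀ x ∈ S, ∀ y ∈ S, f x = f y → x = y) ∧
    (∀ x ∈ S, ∀ y ∈ S, ¬ G.Adj x y)

def T_IT : Prop :=
  ∀ (V β : Type) [Fintype V] [DecidableEq V] [DecidableEq β] (G : SimpleGraph V) (f : V → β),
    Deg2 G → Blk4 f → R0 G f → AllBelow (Fintype.card V) → ∃ S : Finset V, IsIT G f S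

/-! ### the region and its states -/

structure Region {V β κ : Type} [Fintype V] [DecidableEq β] (G : SimpleGraph V) (f : V → β)
    (cp : V → κ) (K : Finset κ) (B : Finset β) : Prop where
  deg2 : Deg2 G
  r0 : R0 G f
  r2 : R2 G f
  blk : ∀ b ∈ B, (univ.filter (fun u => f u = b)).card = 4
  adj : ∀ u v : V, G.Adj u v → cp u = cp v
  cyc : ∀ v : V, cp v ∈ K → ∃ a b : V, a ≠ b ∧ G.Adj v a ∧ G.Adj v b
  inB : ∀ v : V, cp v ∈ K → f v ∈ B

/-- centre system: one vertex in every cycle of `K`, every block of `B` contains a centre -/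
def Cen {V β κ : Type} (f : V → β) (cp : V → κ) (K : Finset κ) (B : Finset β) (m : κ → V) :
    Prop :=
  (∀ C ∈ K, cp (m C) = C) ∧ ∀ b ∈ B, ∃ C ∈ K, f (m C) = b

/-- number of centres in the block `b` -/
def cnt {V β κ : Type} [DecidableEq β] (f : V → β) (K : Finset κ) (m : κ → V) (b : β) : ℕ :=
  (K.filter (fun C => f (m C) = b)).card

/-- clean blocks: every vertex is a centre or adjacent to the centre of its cycle -/
def Clean {V β κ : Type} (G : SimpleGraph V) (f : V → β) (cp : V → κ) (K : Finset κ)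
    (m : κ → V) (b : β) : Prop :=
  ∀ v : V, f v = b → cp v ∈ K ∧ (v = m (cp v) ∨ G.Adj v (m (cp v)))

structure St {V β κ : Type} [DecidableEq β] (G : SimpleGraph V) (f : V → β)
    (cp : V → κ) (K : Finset κ) (B : Finset β) (m : κ → V) (P : Finset β) : Prop where
  cen : Cen f cp K B m
  sub : P ⊆ B
  cl : ∀ b ∈ P, Clean G f cp K m b
  two : ∀ b ∈ P, 2 ≤ cnt f K m b
  star : ∀ C ∈ K, ∀ a a' : V, a ≠ a' → G.Adj (m C) a → G.Adj (m C) a' → ¬ (f a ∈ P ∧ f a' ∈ P)

/-- token blocks -/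
def Tok {V β κ : Type} [DecidableEq β] (f : V → β) (K : Finset κ) (B : Finset β) (m : κ → V)
    (P : Finset β) (b : β) : Prop :=
  b ∈ B ∧ ((b ∈ P ∧ 3 ≤ cnt f K m b) ∨ (b ∉ P ∧ 2 ≤ cnt f K m b))

/-- the two neighbours `a`, `a'` of the centre `m C`; moving the centre to `a` is safe -/
def Safe {V β κ : Type} (G : SimpleGraph V) (f : V → β) (m : κ → V) (P : Finset β) (C : κ)
    (a a' : V) : Prop :=
  a ≠ a' ∧ G.Adj (m C) a ∧ G.Adj (m C) a' ∧
    ((¬ G.Adj a a' ∧ f a' ∉ P) ∨ (G.Adj a a' ∧ ¬ (f (m C) ∈ P ∧ f a' ∈ P)))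

/-- safe arc between blocks -/
def Arc {V β κ : Type} (G : SimpleGraph V) (f : V → β) (K : Finset κ) (m : κ → V) (P : Finset β)
    (b b' : β) : Prop :=
  ∃ C ∈ K, ∃ a a' : V, Safe G f m P C a a' ∧ f (m C) = b ∧ f a = b'

/-- targets -/
def Tgt {V β κ : Type} (G : SimpleGraph V) (f : V → β) (cp : V → κ) (K : Finset κ) (B : Finset β)
    (m : κ → V) (P : Finset β) (b : β) : Prop :=
  b ∈ B ∧ b ∉ P ∧ Clean G f cp K m b ∧
    ∀ C ∈ K, ∀ a a' : V, a ≠ a' → G.Adj (m C) a → G.Adj (m C) a' → f a = b → f a' ∉ P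

/-- 2.1a: the key injection of the count -/
def T_C1 : Prop :=
  ∀ (V β κ : Type) [Fintype V] [DecidableEq V] [DecidableEq β] [DecidableEq κ] (G : SimpleGraph V)
    (f : V → β) (cp : V → κ) (K : Finset κ) (B : Finset β) (m : κ → V) (P Y Sh : Finset β)
    (Dm : Finset V),
    Region G f cp K B → St G f cp K B m P → Y ⊆ B →
    (∀ b ∈ Y, ∀ b', Arc G f K m P b b' → b' ∈ Y) →
    (∀ v, v ∈ Dm ↔ (f v ∈ Y ∧ cp v ∈ K ∧ G.Adj v (m (cp v)))) →
    (∀ b ∈ Sh, b ∈ Y ∧ b ∉ P ∧ ∃ C ∈ K, ∃ a a' : V, a ≠ a' ∧ G.Adj (m C) a ∧ G.Adj (m C) a' ∧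
      f a = b ∧ f a' ∈ P) →
    Sh.card + 2 * ∑ b ∈ Y, cnt f K m b ≤ Dm.card + ∑ b ∈ P ∩ Y, (4 - cnt f K m b)

/-- 2.1: the count -/
def T_C2 : Prop :=
  ∀ (V β κ : Type) [Fintype V] [DecidableEq V] [DecidableEq β] [DecidableEq κ] (G : SimpleGraph V)
    (f : V → β) (cp : V → κ) (K : Finset κ) (B : Finset β) (m : κ → V) (P Y : Finset β),
    Region G f cp K B → St G f cp K B m P → Y ⊆ B →
    (∀ b ∈ Y, ∀ b', Arc G f K m P b b' → b' ∈ Y) →
    (∃ b ∈ Y, Tok f K B m P b) → ∃ b ∈ Y, Tgt G f cp K B m P b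

/-- 2.2: one move -/
def T_MV : Prop :=
  ∀ (V β κ : Type) [Fintype V] [DecidableEq V] [DecidableEq β] [DecidableEq κ] (G : SimpleGraph V)
    (f : V → β) (cp : V → κ) (K : Finset κ) (B : Finset β) (m : κ → V) (P : Finset β),
    Region G f cp K B → St G f cp K B m P →
    ∀ C ∈ K, ∀ a a' : V, Safe G f m P C a a' → Tok f K B m P (f (m C)) →
      St G f cp K B (Function.update m C a) P ∧ Tok f K B (Function.update m C a) P (f a)

/-- 2.3: protecting a target -/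
def T_PR : Prop :=
  ∀ (V β κ : Type) [Fintype V] [DecidableEq V] [DecidableEq β] [DecidableEq κ] (G : SimpleGraph V)
    (f : V → β) (cp : V → κ) (K : Finset κ) (B : Finset β) (m : κ → V) (P : Finset β),
    Region G f cp K B → St G f cp K B m P →
    (∀ b, Tok f K B m P b → Tgt G f cp K B m P b → St G f cp K B m (insert b P)) ∧
    (∀ C ∈ K, ∀ a a' : V, Safe G f m P C a a' → Tok f K B m P (f (m C)) →
      Tgt G f cp K B m P (f a) → St G f cp K B (Function.update m C a) (insert (f a) P))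

/-- 2.4: paths -/
def T_PA : Prop :=
  ∀ (V β κ : Type) [Fintype V] [DecidableEq V] [DecidableEq β] [DecidableEq κ] (G : SimpleGraph V)
    (f : V → β) (cp : V → κ) (K : Finset κ) (B : Finset β) (m : κ → V) (P : Finset β) (b0 b : β),
    Region G f cp K B → St G f cp K B m P → Tok f K B m P b0 → Tgt G f cp K B m P b →
    Relation.ReflTransGen (Arc G f K m P) b0 b →
    ∃ (m' : κ → V) (b' : β), b' ∉ P ∧ St G f cp K B m' (insert b' P)

/-- Section 2: main lemma -/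
def T_ML : Prop :=
  ∀ (V β κ : Type) [Fintype V] [DecidableEq V] [DecidableEq β] [DecidableEq κ] (G : SimpleGraph V)
    (f : V → β) (cp : V → κ) (K : Finset κ) (B : Finset β) (d : ℕ),
    Region G f cp K B → K.card = B.card + d → (∃ m : κ → V, Cen f cp K B m) →
    ∃ (m : κ → V) (P : Finset β), P.card = d ∧ St G f cp K B m P ∧
      (∀ b ∈ P, cnt f K m b = 2) ∧ (∀ b ∈ B, b ∉ P → cnt f K m b = 1)

/-! ### Sections 1 and 3 -/

/-- Section 1: the critical region (Hall) -/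
def T_HK : Prop :=
  ∀ (κ β : Type) [DecidableEq κ] [DecidableEq β] [Nonempty κ] [Nonempty β] (CC : Finset κ)
    (N : κ → Finset β),
    ∃ K : Finset κ, K ⊆ CC ∧ (∃ d : ℕ, K.card = (K.biUnion N).card + d) ∧
      (∃ φ : κ → β, (∀ C ∈ CC \ K, φ C ∈ N C ∧ φ C ∉ K.biUnion N) ∧
        Set.InjOn φ (↑(CC \ K) : Set κ)) ∧
      (∃ ψ : β → κ, (∀ b ∈ K.biUnion N, ψ b ∈ K ∧ b ∈ N (ψ b)) ∧
        Set.InjOn ψ (↑(K.biUnion N) : Set β))

/-- Section 3: the transversal of the other blocks which hits the other cycles -/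
def T_BE : Prop :=
  ∀ (V β κ : Type) [Fintype V] [DecidableEq V] [DecidableEq β] [DecidableEq κ] (G : SimpleGraph V)
    (f : V → β) (cp : V → κ) (B : Finset β) (D : Finset κ) (S : Finset V) (φ : κ → β),
    (∀ u v : V, G.Adj u v → cp u = cp v) → IsIT G f S →
    (∀ C ∈ D, φ C ∉ B ∧ ∃ v : V, cp v = C ∧ f v = φ C) → Set.InjOn φ (↑D : Set κ) →
    ∃ S' : Finset V, (∀ x ∈ S', f x ∉ B) ∧ (∀ v : V, f v ∉ B → ∃ x ∈ S', f x = f v) ∧
      (∀ x ∈ S', ∀ y ∈ S', f x = f y → x = y) ∧ (∀ x ∈ S', ∀ y ∈ S', ¬ G.Adj x y) ∧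
      (∀ C ∈ D, ∃ x ∈ S', cp x = C)

/-! ### Sections 4 and 5 -/

/-- the colour class `4` together with the double blocks `P` -/
structure FourS {V β κ : Type} [DecidableEq β] (G : SimpleGraph V) (f : V → β) (cp : V → κ)
    (K : Finset κ) (P : Finset β) (F : Finset V) : Prop where
  deg2 : Deg2 G
  adj : ∀ u v : V, G.Adj u v → cp u = cp v
  ind : ∀ x ∈ F, ∀ y ∈ F, ¬ G.Adj x y
  ex : ∀ v : V, ∃ x ∈ F, f x = f v
  uniq : ∀ x ∈ F, ∀ y ∈ F, f x = f y → f x ∉ P → x = y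
  two : ∀ b ∈ P, (F.filter (fun x => f x = b)).card = 2
  hit : ∀ X : Finset V, X.Nonempty →
    (∀ x ∈ X, ∃ a ∈ X, ∃ b ∈ X, a ≠ b ∧ G.Adj x a ∧ G.Adj x b) → ∃ x ∈ X, x ∈ F
  inK : ∀ v : V, f v ∈ P → cp v ∈ K
  dom : ∀ v : V, f v ∈ P → v ∉ F → ∃ z ∈ F, G.Adj v z
  one : ∀ x ∈ F, ∀ y ∈ F, cp x = cp y → cp x ∈ K → x = y
  bK : ∀ x ∈ F, ∀ w : V, cp w ∈ K → f x = f w → cp x ∈ K
  star : ∀ z ∈ F, cp z ∈ K → ∀ a a' : V, a ≠ a' → G.Adj z a → G.Adj z a' →
    ¬ (f a ∈ P ∧ f a' ∈ P)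

/-- Sections 1-3 put together -/
def T_FO : Prop :=
  ∀ (V β : Type) [Fintype V] [DecidableEq V] [DecidableEq β] (G : SimpleGraph V) (f : V → β),
    Deg2 G → Blk4 f → R0 G f → R2 G f → (∃ S : Finset V, IsIT G f S) →
    ∃ (κ : Type) (cp : V → κ) (K : Finset κ) (P : Finset β) (F : Finset V), FourS G f cp K P F

/-- Section 4: the graph `F1`: `G` without `F`, one dummy for every block of `P`, and links -/
def F1 {V β : Type} (G : SimpleGraph V) (f : V → β) (P : Finset β) (F : Finset V) {d : ℕ}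
    (e : Fin d ≃ {b // b ∈ P}) : SimpleGraph ({v // v ∉ F} ⊕ {b // b ∈ P}) where
  Adj x y := (∃ u v, x = Sum.inl u ∧ y = Sum.inl v ∧ G.Adj u.1 v.1) ∨
    (∃ (u : {v // v ∉ F}) (i : Fin d) (h : i.1 + 1 < d), f u.1 = (e i).1 ∧
      ((x = Sum.inl u ∧ y = Sum.inr (e ⟨i.1 + 1, h⟩)) ∨
        (y = Sum.inl u ∧ x = Sum.inr (e ⟨i.1 + 1, h⟩))))
  symm := ⟨by
    rintro x y (⟨u, v, rfl, rfl, h⟩ | ⟨u, i, h, hu, h1 | h1⟩)
    · exact Or.inl ⟨v, u, rfl, rfl, h.symm⟩
    · exact Or.inr ⟨u, i, h, hu, Or.inr h1⟩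
    · exact Or.inr ⟨u, i, h, hu, Or.inl h1⟩⟩
  loopless := ⟨by
    rintro x (⟨u, v, h1, h2, h⟩ | ⟨u, i, h, hu, ⟨h1, h2⟩ | ⟨h1, h2⟩⟩)
    · rw [h1] at h2
      exact h.ne (congrArg Subtype.val (Sum.inl.inj h2))
    · rw [h1] at h2; exact Sum.inl_ne_inr h2
    · rw [h1] at h2; exact Sum.inl_ne_inr h2⟩

/-- no nonempty set in which every vertex has two neighbours -/
def Acyc {W : Type} (F : SimpleGraph W) : Prop :=
  ∀ X : Finset W, X.Nonempty → ∃ x ∈ X, ∀ a ∈ X, ∀ b ∈ X, F.Adj x a → F.Adj x b → a = b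

/-- Section 4a: `F1` is a linear forest -/
def T_3A : Prop :=
  ∀ (V β κ : Type) [Fintype V] [DecidableEq V] [DecidableEq β] [DecidableEq κ] (G : SimpleGraph V)
    (f : V → β) (cp : V → κ) (K : Finset κ) (P : Finset β) (F : Finset V) (d : ℕ)
    (e : Fin d ≃ {b // b ∈ P}),
    Blk4 f → R0 G f → FourS G f cp K P F → Deg2 (F1 G f P F e) ∧ Acyc (F1 G f P F e)

/-- Section 4: the colouring of the rest with equal missing colours -/
def T_3C : Prop :=
  ∀ (V β κ : Type) [Fintype V] [DecidableEq V] [DecidableEq β] [DecidableEq κ] (G : SimpleGraph V)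
    (f : V → β) (cp : V → κ) (K : Finset κ) (P : Finset β) (F : Finset V),
    Blk4 f → R0 G f → FourS G f cp K P F →
    ∃ (c : V → Fin 3) (g : Fin 3), (∀ u v, u ∉ F → v ∉ F → G.Adj u v → c u ≠ c v) ∧
      (∀ u v, u ∉ F → v ∉ F → f u = f v → u ≠ v → c u ≠ c v) ∧
      (∀ v, v ∉ F → f v ∈ P → c v ≠ g)

/-- Section 5: the Kempe swap -/
def T_KE : Prop :=
  ∀ (V β κ : Type) [Fintype V] [DecidableEq V] [DecidableEq β] [DecidableEq κ] (G : SimpleGraph V)
    (f : V → β) (cp : V → κ) (K : Finset κ) (P : Finset β) (F : Finset V),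
    Blk4 f → R0 G f → FourS G f cp K P F →
    (∃ (c : V → Fin 3) (g : Fin 3), (∀ u v, u ∉ F → v ∉ F → G.Adj u v → c u ≠ c v) ∧
      (∀ u v, u ∉ F → v ∉ F → f u = f v → u ≠ v → c u ≠ c v) ∧
      (∀ v, v ∉ F → f v ∈ P → c v ≠ g)) → Col4 G f

/-! ### Sections 6 and 7: cycle plus triangles -/

/-- Section 6: linear order in which all edges join consecutive elements -/
def T_LO : Prop :=
  ∀ (W : Type) [Fintype W] [DecidableEq W] (F : SimpleGraph W), Deg2 F → Acyc F →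
    ∃ L : List W, L.Nodup ∧ (∀ w, w ∈ L) ∧
      ∀ u v, F.Adj u v → ∃ L1 L2 : List W, L = L1 ++ u :: v :: L2 ∨ L = L1 ++ v :: u :: L2

/-- the core of the cycle plus triangles theorem; `e` is the cyclic order -/
def T_FC : Prop :=
  ∀ (ι : Type) [Fintype ι] [DecidableEq ι] (N : ℕ) [NeZero N] (e : Fin N ≃ ι × Fin 3),
    ∃ c : ι × Fin 3 → Fin 3, (∀ b : ι, Function.Injective (fun j => c (b, j))) ∧
      ∀ i : Fin N, c (e i) ≠ c (e (i + 1))

/-- cycle plus triangles for linear forests -/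
def T_FS : Prop :=
  ∀ (W τ : Type) [Fintype W] [DecidableEq W] [DecidableEq τ] (F : SimpleGraph W) (t : W → τ),
    Deg2 F → Acyc F → (∀ w, (univ.filter (fun x => t x = t w)).card = 3) →
    ∃ c : W → Fin 3, (∀ u v, F.Adj u v → c u ≠ c v) ∧ (∀ u v, t u = t v → u ≠ v → c u ≠ c v)

/-- parity lemma -/
def T_PL : Prop :=
  ∀ (ι : Type) [Fintype ι] [DecidableEq ι] (Q : ι → Fin 3 → ι → Fin 3 → ZMod 2),
    (∀ b x b' x', Q b x b' x' = Q b' x' b x) →
    (∀ b x b', b ≠ b' → ∑ x' : Fin 3, Q b x b' x' = 0) →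
    Odd (univ.filter (fun h : ι → Fin 3 =>
      ∀ b : ι, ∑ b' ∈ univ.filter (fun b' => b' ≠ b), Q b (h b) b' (h b') = 0)).card

/-- choices `h` of one through point in every triple such that between the two other points of
every triple there is an even number of turning points -/
def Good {ι : Type} [Fintype ι] [DecidableEq ι] {N : ℕ} (e : Fin N ≃ ι × Fin 3) (h : ι → Fin 3) :
    Prop :=
  ∀ (b : ι) (j j' : Fin 3), j ≠ h b → j' ≠ h b → e.symm (b, j) < e.symm (b, j') →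
    Even (univ.filter (fun i : Fin N => e.symm (b, j) < i ∧ i < e.symm (b, j') ∧
      (e i).2 ≠ h (e i).1)).card

instance {ι : Type} [Fintype ι] [DecidableEq ι] {N : ℕ} (e : Fin N ≃ ι × Fin 3) :
    DecidablePred (Good e) := fun h => by unfold Good; infer_instance

/-- the number of good choices is odd -/
def T_GO : Prop :=
  ∀ (ι : Type) [Fintype ι] [DecidableEq ι] (N : ℕ) (e : Fin N ≃ ι × Fin 3),
    Odd (univ.filter (fun h : ι → Fin 3 => Good e h)).card

/-! the field with four elements -/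

/-- the exponent of the point `i` when the edge `k` (from `k` to `k + 1`) picks `k` if `o k = false`
and `k + 1` if `o k = true` -/
def Ex {N : ℕ} [NeZero N] (o : Fin N → Bool) (i : Fin N) : ℕ :=
  (if o i = false then 1 else 0) + (if o (i - 1) = true then 1 else 0)

/-- an orientation is good at the triple `b` if the three exponents are `0, 1, 2` in some order -/
def GoodAt {ι : Type} {N : ℕ} [NeZero N] (e : Fin N ≃ ι × Fin 3) (o : Fin N → Bool) (b : ι) : Prop :=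
  Function.Injective (fun j : Fin 3 => Ex o (e.symm (b, j)))

/-- number of good orientations with `o 0 = false` = number of good choices -/
def T_OG : Prop :=
  ∀ (ι : Type) [Fintype ι] [DecidableEq ι] (N : ℕ) [NeZero N] (e : Fin N ≃ ι × Fin 3),
    1 < N → Nat.card {o : Fin N → Bool // o 0 = false ∧ ∀ b, GoodAt e o b} =
      Nat.card {h : ι → Fin 3 // Good e h}

/-- a commutative ring of characteristic two with the sums of the field with four elements -/
def T_F4 : Prop :=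
  ∃ (R : Type) (_ : CommRing R) (w : Fin 3 → R), (1 : R) + 1 = 0 ∧ (1 : R) ≠ 0 ∧
    (∀ E : Fin 3 → ℕ, (∀ j, E j ≤ 2) →
      ((Function.Injective E → ∑ s : Equiv.Perm (Fin 3), ∏ j, w (s j) ^ E j = 1) ∧
        (¬ Function.Injective E → ∑ s : Equiv.Perm (Fin 3), ∏ j, w (s j) ^ E j = 0))) ∧
    (∀ E : Fin 3 → ℕ, (∀ j, E j ≤ 2) → ∑ j, E j = 3 →
      ((Function.Injective E → ∏ j, w j ^ E j + ∏ j, w j ^ (2 - E j) = 1) ∧
        (¬ Function.Injective E → ∏ j, w j ^ E j + ∏ j, w j ^ (2 - E j) = 0)))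

/-- expansion of the product over the cycle -/
def T_XP : Prop :=
  ∀ (ι : Type) [Fintype ι] [DecidableEq ι] (N : ℕ) [NeZero N] (e : Fin N ≃ ι × Fin 3)
    (R : Type) [CommRing R] (x : ι × Fin 3 → R),
    ∏ i : Fin N, (x (e i) + x (e (i + 1))) =
      ∑ o : Fin N → Bool, ∏ b : ι, ∏ j : Fin 3, x (b, j) ^ Ex o (e.symm (b, j))

/-- if the number of good orientations with `o 0 = false` is odd there is a colouring -/
def T_OC : Prop :=
  ∀ (ι : Type) [Fintype ι] [DecidableEq ι] (N : ℕ) [NeZero N] (e : Fin N ≃ ι × Fin 3),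
    Odd (Nat.card {o : Fin N → Bool // o 0 = false ∧ ∀ b, GoodAt e o b}) →
    ∃ c : ι × Fin 3 → Fin 3, (∀ b : ι, Function.Injective (fun j => c (b, j))) ∧
      ∀ i : Fin N, c (e i) ≠ c (e (i + 1))

/-! ### final -/

/-- the theorem for blocks with exactly four elements -/
def T_EX : Prop :=
  ∀ (V β : Type) [Fintype V] [DecidableEq V] [DecidableEq β] (G : SimpleGraph V) (f : V → β),
    Deg2 G → Blk4 f → Col4 G f

/-- the theorem for blocks with at most four elements -/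
def T_LE : Prop :=
  ∀ (V β : Type) [Fintype V] [DecidableEq V] [DecidableEq β] (G : SimpleGraph V) (f : V → β),
    Deg2 G → (∀ b, (univ.filter (fun u => f u = b)).card ≤ 4) → Col4 G f

end Pool.Agent.H98.S4
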