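import Pool.Agent.H98.S4.Asm0
import Pool.Agent.H31.SC.OR

/-! Assembly: `T_EX` and `T_LE` without hypotheses. -/

set_option autoImplicit false

namespace Pool.Agent.H98.S4

theorem or_holds : Pool.Agent.H57.SC.T_OR :=
  Pool.Agent.H31.SC.pf_or (Pool.Agent.H31.SC.pf_ch Pool.Agent.H31.SC.pf_par)

theorem ex_holds : T_EX := ex_of_or or_holds

theorem le_holds : T_LE := le_of_or or_holds

end Pool.Agent.H98.S4
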