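import Pool.Agent.H57.SC.Targets
import Pool.Agent.H42.S4.LO

/-! The linear order of a linear forest, in the form used in the other half. -/

set_option autoImplicit false

namespace Pool.Agent.H98.S4

open Finset

theorem lo57 : Pool.Agent.H57.SC.T_LO := by
  intro W _ _ F _ hd hA
  have hd2 : Deg2 F := by
    intro x a b c ha hb hc
    by_contra hcon
    push Not at hcon
    obtain ⟨h1, h2, h3⟩ := hcon
    have : 2 < (F.neighborFinset x).card := by
      rw [Finset.two_lt_card_iff]
      exact ⟨a, b, c, by simpa using ha, by simpa using hb, by simpa using hc, h1, h2, h3⟩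
    rw [SimpleGraph.card_neighborFinset_eq_degree] at this
    have := hd x
    omega
  have hac : Acyc F := by
    intro X hX
    obtain ⟨v, hv, h⟩ := hA X hX
    refine ⟨v, hv, fun a ha b hb h1 h2 => ?_⟩
    rw [Finset.card_le_one] at h
    exact h a (by simp [ha, h1]) b (by simp [hb, h2])
  obtain ⟨L, hL, hm, hadj⟩ := Pool.Agent.H42.S4.pf_lo W F hd2 hac
  have hlen : L.length = Fintype.card W := by
    have h1 : L.toFinset = univ := by
      ext w; simp [hm w]
    have h2 := List.toFinset_card_of_nodup hL
    rw [h1, card_univ] at h2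
    exact h2.symm
  let e0 : Fin L.length ≃ W := hL.getEquivOfForallMemList L hm
  let e : W ≃ Fin (Fintype.card W) := e0.symm.trans (finCongr hlen)
  have key : ∀ (w : W) (M1 M2 : List W), L = M1 ++ w :: M2 → (e w : ℕ) = M1.length := by
    intro w M1 M2 h
    have hlt : M1.length < L.length := by rw [h]; simp
    have h1 : e0 ⟨M1.length, hlt⟩ = w := by
      change L.get ⟨M1.length, hlt⟩ = w
      simp only [List.get_eq_getElem]
      subst h
      simp
    have h2 : e0.symm w = ⟨M1.length, hlt⟩ := by
      rw [← h1, Equiv.symm_apply_apply]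
    change ((finCongr hlen) (e0.symm w) : ℕ) = M1.length
    rw [h2]
    rfl
  refine ⟨e, fun u v huv => ?_⟩
  obtain ⟨L1, L2, h | h⟩ := hadj u v huv
  · right
    have h1 := key u L1 (v :: L2) h
    have h2 := key v (L1 ++ [u]) L2 (by rw [h]; simp)
    rw [h1, h2]
    simp
  · left
    have h1 := key v L1 (u :: L2) h
    have h2 := key u (L1 ++ [v]) L2 (by rw [h]; simp)
    rw [h1, h2]
    simp

end Pool.Agent.H98.S4
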