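import Pool.Agent.H98.S4.Targets
import Pool.Agent.H57.SC.Targets
import Pool.Agent.H57.SC.AdML
import Pool.Agent.H57.SC.AdFS
import Pool.Agent.H91.SC.FS
import Pool.Agent.H91.SC.UL
import Pool.Agent.H71.SC.GB
import Pool.Agent.H98.S4.LO57
import Pool.Agent.H13.SC.ML
import Pool.Agent.H51.SC.US
import Pool.Agent.H48.SC.ZZ
import Pool.Agent.H54.SC.ST
import Pool.Agent.H84.SC.ALG
import Pool.Agent.H89.SC.HL
import Pool.Agent.H31.SC.PAR
import Pool.Agent.H31.SC.CH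
import Pool.Agent.H84.S4.C3C
import Pool.Agent.H35.S4.A1
import Pool.Agent.H50.S4.A2
import Pool.Agent.H71.S4.BE
import Pool.Agent.H48.S4.EX
import Pool.Agent.H51.S4.FO
import Pool.Agent.H19.S4.HK
import Pool.Agent.H19.S4.IT
import Pool.Agent.H98.S4.C3A
import Pool.Agent.H19.S4.BB
import Pool.Agent.H3.S4.KE
import Pool.Agent.H99.S4.LE

/-! Assembly of all modules: `T_LE` and `T_EX` from the oriented form `T_OR`. -/

set_option autoImplicit false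

namespace Pool.Agent.H98.S4

theorem ml57 : Pool.Agent.H57.SC.T_ML :=
  have gb : Pool.Agent.H57.SC.T_GB :=
    Pool.Agent.H71.SC.pf_gb Pool.Agent.H51.SC.pf_us Pool.Agent.H91.SC.pf_ul
  Pool.Agent.H57.SC.pf_ml
    (Pool.Agent.H54.SC.pf_st Pool.Agent.H89.SC.pf_hl Pool.Agent.H48.SC.pf_zz
      Pool.Agent.H91.SC.pf_ul gb)

theorem fs57 (orr : Pool.Agent.H57.SC.T_OR) : Pool.Agent.H57.SC.T_FS :=
  Pool.Agent.H91.SC.pf_fs orr Pool.Agent.H84.SC.pf_alg lo57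

theorem ex_of_or (orr : Pool.Agent.H57.SC.T_OR) : T_EX :=
  have fs : T_FS := Pool.Agent.H57.SC.pf_adFS (fs57 orr)
  have ml : T_ML := Pool.Agent.H57.SC.pf_adML ml57
  Pool.Agent.H48.S4.s4_EX Pool.Agent.H35.S4.s4_A1 Pool.Agent.H50.S4.s4_A2
    Pool.Agent.H19.S4.s4_BB Pool.Agent.H19.S4.s4_IT
    (Pool.Agent.H51.S4.s4_FO ml Pool.Agent.H19.S4.s4_HK Pool.Agent.H71.S4.s4_BE)
    (Pool.Agent.H84.S4.s4_3C s4_3A fs)
    Pool.Agent.H3.S4.s4_KE

theorem le_of_or (orr : Pool.Agent.H57.SC.T_OR) : T_LE :=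
  Pool.Agent.H99.S4.s4_LE (ex_of_or orr)

end Pool.Agent.H98.S4
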