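import Pool.Agent.H98.S4.Targets

/-! The final statement from `T_LE`. -/

set_option autoImplicit false

namespace Pool.Agent.H98.S4

open Finset

/-- `G` is strongly `k`-colourable: `k ⌈n/k⌉ - n` isolated vertices are added, and for every
partition of the enlarged vertex set into `⌈n/k⌉` blocks of size `k` there is a colouring with `k`
colours in which adjacent vertices and different vertices of one block have different colours. -/
def StronglyColorable {V : Type} [Fintype V] (G : SimpleGraph V) (k : ℕ) : Prop :=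
  ∀ f : V ⊕ Fin (k * ((Fintype.card V + k - 1) / k) - Fintype.card V) →
      Fin ((Fintype.card V + k - 1) / k),
    (∀ i, (univ.filter (fun x => f x = i)).card = k) →
    ∃ c : V ⊕ Fin (k * ((Fintype.card V + k - 1) / k) - Fintype.card V) → Fin k,
      (∀ u v : V, G.Adj u v → c (Sum.inl u) ≠ c (Sum.inl v)) ∧
      ∀ x y, x ≠ y → f x = f y → c x ≠ c y

/-- The strong chromatic number: the least `k ≥ 1` such that `G` is strongly `k`-colourable. -/
noncomputable def strongChromaticNumber {V : Type} [Fintype V] (G : SimpleGraph V) : ℕ :=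
  sInf {k : ℕ | 1 ≤ k ∧ StronglyColorable G k}

theorem deg2_of_maxDegree {V : Type} [Fintype V] [DecidableEq V] (G : SimpleGraph V)
    [DecidableRel G.Adj] (h : G.maxDegree ≤ 2) : Deg2 G := by
  intro x a b c ha hb hc
  by_contra hcon
  push Not at hcon
  obtain ⟨h1, h2, h3⟩ := hcon
  have hsub : ({a, b, c} : Finset V) ⊆ G.neighborFinset x := by
    intro y hy
    simp only [mem_insert, mem_singleton] at hy
    rcases hy with rfl | rfl | rfl <;> simpa using ‹_›
  have hcard : ({a, b, c} : Finset V).card = 3 := by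
    rw [card_insert_of_notMem, card_insert_of_notMem, card_singleton]
    · simpa using h3
    · simp only [mem_insert, mem_singleton, not_or]; exact ⟨h1, h2⟩
  have h4 := card_le_card hsub
  have h5 := G.degree_le_maxDegree x
  rw [SimpleGraph.card_neighborFinset_eq_degree] at h4
  omega

theorem final (hLE : T_LE) (V : Type) [Fintype V] (G : SimpleGraph V) [DecidableRel G.Adj]
    (hG : G.maxDegree ≤ 2) :
    (∀ (β : Type) [DecidableEq β] (f : V → β), (∀ b, (univ.filter (fun v => f v = b)).card ≤ 4) →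
      ∃ c : V → Fin 4, (∀ u v, G.Adj u v → c u ≠ c v) ∧ ∀ u v, u ≠ v → f u = f v → c u ≠ c v) ∧
    StronglyColorable G 4 ∧ strongChromaticNumber G ≤ 4 := by
  classical
  have hd : Deg2 G := by
    have := deg2_of_maxDegree G (by convert hG)
    exact this
  have hs : StronglyColorable G 4 := by
    intro f hf
    let m : ℕ := 4 * ((Fintype.card V + 4 - 1) / 4) - Fintype.card V
    let G' : SimpleGraph (V ⊕ Fin m) :=
      { Adj := fun x y => ∃ u v, x = Sum.inl u ∧ y = Sum.inl v ∧ G.Adj u v
        symm := ⟨fun x y ⟨u, v, h1, h2, h3⟩ => ⟨v, u, h2, h1, h3.symm⟩⟩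
        loopless := ⟨fun x ⟨u, v, h1, h2, h3⟩ => by
          rw [h1] at h2; exact h3.ne (Sum.inl.inj h2)⟩ }
    have hd' : Deg2 G' := by
      rintro x a b c ⟨u, v, rfl, rfl, h⟩ ⟨u1, v1, h1, rfl, h'⟩ ⟨u2, v2, h2, rfl, h''⟩
      have e1 := Sum.inl.inj h1
      have e2 := Sum.inl.inj h2
      subst e1; subst e2
      rcases hd _ _ _ _ h h' h'' with h0 | h0 | h0
      · exact Or.inl (by rw [h0])
      · exact Or.inr (Or.inl (by rw [h0]))
      · exact Or.inr (Or.inr (by rw [h0]))
    obtain ⟨c, hc1, hc2⟩ := hLE (V ⊕ Fin m) _ G' f hd' (fun b => (hf b).le)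
    exact ⟨c, fun u v h => hc1 _ _ ⟨u, v, rfl, rfl, h⟩, fun x y hne h => hc2 x y h hne⟩
  refine ⟨?_, hs, ?_⟩
  · intro β _ f hf
    obtain ⟨c, hc1, hc2⟩ := hLE V β G f hd hf
    exact ⟨c, hc1, fun u v hne h => hc2 u v h hne⟩
  · exact Nat.sInf_le ⟨by norm_num, hs⟩

end Pool.Agent.H98.S4
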