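import Pool.Agent.H98.S4.Targets

/-! Interfaces of helper57 (Hall version of the main lemma). -/

set_option autoImplicit false

namespace Pool.Agent.H98.S4

open Finset

/-- main lemma, interface of helper57 -/
def T_MLH : Prop :=
  ∀ (W C B : Type) [Fintype W] [DecidableEq W] [Fintype C] [DecidableEq C] [Fintype B]
    [DecidableEq B] (cyc : W → C) (blk : W → B) (adj : W → W → Prop),
    (∀ u v, adj u v → adj v u) → (∀ u, ¬ adj u u) → (∀ u v, adj u v → cyc u = cyc v) →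
    (∀ v, ∃ a b, a ≠ b ∧ ∀ u, adj v u ↔ u = a ∨ u = b) →
    (∀ u v, u ≠ v → (adj u v ∨ ∃ m, adj m u ∧ adj m v) → blk u ≠ blk v) →
    (∀ b, (univ.filter (fun w => blk w = b)).card ≤ 4) →
    ∀ d : ℕ, Fintype.card C = Fintype.card B + d →
    ∀ m0 : C → W, (∀ c, cyc (m0 c) = c) → (∀ b, ∃ c, blk (m0 c) = b) →
    ∃ (m : C → W) (Q : Finset B), (∀ c, cyc (m c) = c) ∧ Q.card = d ∧
      (∀ b ∈ Q, (univ.filter (fun c => blk (m c) = b)).card = 2) ∧
      (∀ b, b ∉ Q → (univ.filter (fun c => blk (m c) = b)).card = 1) ∧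
      (∀ b ∈ Q, (univ.filter (fun w => blk w = b)).card = 4) ∧
      (∀ w, blk w ∈ Q → w = m (cyc w) ∨ adj (m (cyc w)) w) ∧
      (∀ w w', blk w ∈ Q → blk w' ∈ Q → cyc w = cyc w' → w ≠ m (cyc w) → w' ≠ m (cyc w) →
        w = w')

end Pool.Agent.H98.S4
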